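import Pool.Agent.H136.AntiInit

/-!
# Long antidirected paths: minimum semidegree `3k/4` suffices

Every antidirected-connected digraph with at least `k + 1` vertices in which every vertex has
outdegree and indegree at least `3k/4` contains an antidirected path with `k` edges.
-/

set_option autoImplicit false

namespace Pool.Agent.Results.MP_04ab3e_co.ThreeQuarters

open Finset Pool.Agent.H136.CycList Pool.Agent.H136.AntiPath

/-- `p 0, p 1, ..., p k` is an antidirected path with `k` edges in the digraph with edge relation
`E`: the vertices are distinct and the edges `{p i, p (i + 1)}` are directed alternately forwards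
and backwards, beginning with either direction. -/
def IsAntidirectedPath {V : Type*} (E : V → V → Prop) (k : ℕ) (p : Fin (k + 1) → V) : Prop :=
  Function.Injective p ∧
    ((∀ i : Fin k, (Even (i : ℕ) → E (p i.castSucc) (p i.succ)) ∧
        (Odd (i : ℕ) → E (p i.succ) (p i.castSucc))) ∨
      (∀ i : Fin k, (Even (i : ℕ) → E (p i.succ) (p i.castSucc)) ∧
        (Odd (i : ℕ) → E (p i.castSucc) (p i.succ))))

/-- any two distinct vertices are the two end vertices of an antidirected path -/
def AntidirectedConnected {V : Type*} (E : V → V → Prop) : Prop :=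
  ∀ u v : V, u ≠ v → ∃ (m : ℕ) (p : Fin (m + 1) → V), IsAntidirectedPath E m p ∧ p 0 = u ∧
    p (Fin.last m) = v

section

variable {V : Type*} (E : V → V → Prop)

/-- `e true` is the edge relation and `e false` its converse -/
def e (b : Bool) (x y : V) : Prop := if b = true then E x y else E y x

lemma e_symm (s : Bool) (x y : V) (h : e E s x y) : e E (!s) y x := by
  cases s <;> simpa [e] using h

/-- a chain in the double cover gives an antidirected path -/
lemma toPath {l : List (V × Bool)} (h1 : l.IsChain (fun a b => b.2 = !a.2 ∧ e E a.2 a.1 b.1))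
    (h2 : (l.map Prod.fst).Nodup) {k : ℕ} (hk : k + 1 ≤ l.length) :
    ∃ p : Fin (k + 1) → V, IsAntidirectedPath E k p := by
  have hcol : ∀ i (hi : i < l.length), (Even i → (l[i]).2 = (l[0]).2) ∧
      (Odd i → (l[i]).2 = !(l[0]).2) := by
    intro i
    induction i with
    | zero => intro hi; simp
    | succ i ih =>
      intro hi
      have hs := (List.isChain_iff_getElem.1 h1 i hi).1
      obtain ⟨h3, h4⟩ := ih (by omega)
      refine ⟨fun hev => ?_, fun hodd => ?_⟩
      · rw [hs, h4 (by rwa [Nat.even_add_one, Nat.not_even_iff_odd] at hev), Bool.not_not]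
      · rw [hs, h3 (by rwa [Nat.odd_add_one, Nat.not_odd_iff_even] at hodd)]
  have hedge : ∀ i (hi : i + 1 < l.length), e E (l[i]).2 (l[i]).1 (l[i + 1]).1 :=
    fun i hi => (List.isChain_iff_getElem.1 h1 i hi).2
  refine ⟨fun i => (l[(i : ℕ)]'(by omega)).1, ?_, ?_⟩
  · intro i j hij
    have hij' : (l.map Prod.fst)[(i : ℕ)]'(by simp; omega) =
        (l.map Prod.fst)[(j : ℕ)]'(by simp; omega) := by
      simpa using hij
    exact Fin.ext ((List.Nodup.getElem_inj_iff h2).1 hij')
  · have h0 : 0 < l.length := by omega
    cases hc : (l[0]).2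
    · right
      intro i
      have hi := hedge i (by omega)
      obtain ⟨h3, h4⟩ := hcol i (by omega)
      constructor
      · intro hev
        rw [h3 hev, hc] at hi
        simpa [e] using hi
      · intro hodd
        rw [h4 hodd, hc] at hi
        simpa [e] using hi
    · left
      intro i
      have hi := hedge i (by omega)
      obtain ⟨h3, h4⟩ := hcol i (by omega)
      constructor
      · intro hev
        rw [h3 hev, hc] at hi
        simpa [e] using hi
      · intro hodd
        rw [h4 hodd, hc] at hi
        simpa [e] using hi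

/-- a set of signed vertices closed under adjacency is closed along antidirected paths -/
lemma along {R : V × Bool → Prop}
    (hR : ∀ g h : V × Bool, R g → (h.2 = (!g.2) ∧ e E g.2 g.1 h.1) → R h)
    {m : ℕ} {p : Fin (m + 1) → V} (hp : IsAntidirectedPath E m p)
    (h0 : R (p 0, true)) (h0' : R (p 0, false)) :
    R (p (Fin.last m), true) ∨ R (p (Fin.last m), false) := by
  obtain ⟨-, hp⟩ := hp
  have key : ∀ c : Bool, (∀ i : Fin m, (Even (i : ℕ) → e E c (p i.castSucc) (p i.succ)) ∧
      (Odd (i : ℕ) → e E (!c) (p i.castSucc) (p i.succ))) → R (p 0, c) →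
      ∀ i : ℕ, (hi : i < m + 1) → (Even i → R (p ⟨i, hi⟩, c)) ∧ (Odd i → R (p ⟨i, hi⟩, !c)) := by
    intro c hc hc0 i
    induction i with
    | zero =>
      intro hi
      exact ⟨fun _ => hc0, fun h => by simp at h⟩
    | succ i ih =>
      intro hi
      obtain ⟨h1, h2⟩ := ih (by omega)
      obtain ⟨h3, h4⟩ := hc ⟨i, by omega⟩
      refine ⟨fun hev => ?_, fun hodd => ?_⟩
      · have hio : Odd i := by rwa [Nat.even_add_one, Nat.not_even_iff_odd] at hev
        exact hR _ _ (h2 hio) ⟨by simp, h4 hio⟩
      · have hie : Even i := by rwa [Nat.odd_add_one, Nat.not_odd_iff_even] at hodd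
        exact hR _ _ (h1 hie) ⟨rfl, h3 hie⟩
  have fin : ∀ c : Bool, (∀ i : Fin m, (Even (i : ℕ) → e E c (p i.castSucc) (p i.succ)) ∧
      (Odd (i : ℕ) → e E (!c) (p i.castSucc) (p i.succ))) → R (p 0, c) →
      R (p (Fin.last m), true) ∨ R (p (Fin.last m), false) := by
    intro c hc hc0
    obtain ⟨h1, h2⟩ := key c hc hc0 m (by omega)
    rcases Nat.even_or_odd m with h | h
    · have h3 := h1 h
      cases c
      · exact Or.inr h3
      · exact Or.inl h3
    · have h3 := h2 h
      cases c
      · exact Or.inl h3
      · exact Or.inr h3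
  rcases hp with hp | hp
  · refine fin true (fun i => ⟨fun h => ?_, fun h => ?_⟩) h0
    · simpa [e] using (hp i).1 h
    · simpa [e] using (hp i).2 h
  · refine fin false (fun i => ⟨fun h => ?_, fun h => ?_⟩) h0'
    · simpa [e] using (hp i).1 h
    · simpa [e] using (hp i).2 h

end

/-- **Theorem.**  Let `E` be the edge relation of a finite loopless digraph on `V` which is
antidirected-connected and has at least `k + 1` vertices. If every vertex has outdegree and indegree
at least `3k/4`, then the digraph contains an antidirected path with `k` edges. -/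
theorem result (V : Type) [Fintype V] (E : V → V → Prop) (hE : ∀ v, ¬ E v v)
    (hconn : AntidirectedConnected E) (k : ℕ) (hV : k + 1 ≤ Fintype.card V)
    (hdeg : ∀ v, 3 * k ≤ 4 * {w | E v w}.ncard ∧ 3 * k ≤ 4 * {w | E w v}.ncard) :
    ∃ p : Fin (k + 1) → V, IsAntidirectedPath E k p := by
  classical
  by_contra hno
  have hlen : ∀ l : List (V × Bool), l.IsChain (fun a b => b.2 = !a.2 ∧ e E a.2 a.1 b.1) →
      (l.map Prod.fst).Nodup → l.length ≤ k := by
    intro l h1 h2
    by_contra hlt
    exact hno (toPath E h1 h2 (by omega))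
  set P : ℕ → Prop := fun m => ∃ l : List (V × Bool),
    l.IsChain (fun a b => b.2 = !a.2 ∧ e E a.2 a.1 b.1) ∧ (l.map Prod.fst).Nodup ∧
      l.length = m with hP
  obtain ⟨v0⟩ : Nonempty V := Fintype.card_pos_iff.1 (by omega)
  have hP1 : P 1 := ⟨[(v0, true)], by simp, by simp, rfl⟩
  have hk1 : 1 ≤ k := by
    obtain ⟨l, h1, h2, h3⟩ := hP1
    have := hlen l h1 h2
    omega
  have hspec : P (Nat.findGreatest P k) := Nat.findGreatest_spec hk1 hP1
  obtain ⟨l, h1, h2, h3⟩ := hspec
  have hMk : Nat.findGreatest P k ≤ k := Nat.findGreatest_le k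
  have hM1 : 1 ≤ Nat.findGreatest P k := Nat.le_findGreatest hk1 hP1
  set C : Ctx V := {
    e := e E
    symm := e_symm E
    irr := fun s x h => by
      cases s
      · exact hE x (by simpa [e] using h)
      · exact hE x (by simpa [e] using h)
    δ := (3 * k + 3) / 4
    hδ := fun s x => by
      refine ⟨Finset.univ.filter (e E s x), fun y hy => (Finset.mem_filter.1 hy).2, ?_⟩
      obtain ⟨d1, d2⟩ := hdeg x
      cases s
      · have : (Finset.univ.filter (e E false x)).card = {w | E w x}.ncard := by
          rw [← Set.ncard_coe_finset]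
          congr 1
          ext w
          simp [e]
        rw [this]
        omega
      · have : (Finset.univ.filter (e E true x)).card = {w | E x w}.ncard := by
          rw [← Set.ncard_coe_finset]
          congr 1
          ext w
          simp [e]
        rw [this]
        omega
    M := Nat.findGreatest P k
    hM := fun l h1 h2 => Nat.le_findGreatest (hlen l h1 h2) ⟨l, h1, h2, rfl⟩ } with hC
  have hfin := Ctx.card_le C (k := k) (by rw [hC]; simp only; omega) hMk (l := l) ⟨h1, h2⟩ h3
    (by
      rintro rfl
      rw [List.length_nil] at h3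
      omega)
    (by
      intro R hR v hv hv' w
      rcases eq_or_ne v w with rfl | hne
      · exact Or.inl hv
      · obtain ⟨m, p, hp, rfl, rfl⟩ := hconn v w hne
        exact along E (fun g h hg hgh => hR g h hg hgh) hp hv hv')
  have : Fintype.card V ≤ Nat.findGreatest P k := hfin
  omega

end Pool.Agent.Results.MP_04ab3e_co.ThreeQuarters
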